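import Mathlib

set_option autoImplicit false

namespace Pool.Agent.Results.MP_8bd6c4_co.Q2

open Finset Filter SimpleGraph

/-- Least number of trees whose edge sets partition the edge set. -/
noncomputable def tau {V : Type} (G : SimpleGraph V) : ℕ :=
  sInf {k | ∃ T : Fin k → G.Subgraph, (∀ i, (T i).coe.IsTree) ∧
    ∀ e ∈ G.edgeSet, ∃! i, e ∈ (T i).edgeSet}

/-- Least number of classes of a vertex partition all of whose classes induce trees. -/
noncomputable def tau' {V : Type} (G : SimpleGraph V) : ℕ :=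
  sInf {k | ∃ c : V → Fin k, ∀ i, (G.induce {v | c v = i}).IsTree}

/-- The largest ratio over connected graphs on `n` vertices with at least one edge. -/
noncomputable def maxRatio (n : ℕ) : ℝ :=
  sSup {r | ∃ G : SimpleGraph (Fin n), G.Connected ∧ G.edgeSet.Nonempty ∧
    r = (tau' G : ℝ) / (tau G * n)}

theorem tree_of_par {W : Type} [Finite W] (H : SimpleGraph W) (r : W) (par : W → W) (ρ : W → ℕ)
    (h1 : ∀ v, v ≠ r → H.Adj v (par v) ∧ ρ (par v) < ρ v)
    (h2 : ∀ u v, H.Adj u v → (u ≠ r ∧ v = par u) ∨ (v ≠ r ∧ u = par v)) : H.IsTree := by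
  have hc : H.Connected := by
    have hr : ∀ m v, ρ v = m → H.Reachable v r := by
      intro m
      induction m using Nat.strong_induction_on with
      | _ m ih =>
        intro v hv
        by_cases e : v = r
        · rw [e]
        · exact (h1 v e).1.reachable.trans (ih _ (hv ▸ (h1 v e).2) _ rfl)
    haveI : Nonempty W := ⟨r⟩
    exact ⟨fun u v => (hr _ u rfl).trans (hr _ v rfl).symm⟩
  refine isTree_iff_connected_and_card.2 ⟨hc, le_antisymm ?_ hc.card_vert_le_card_edgeSet_add_one⟩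
  have h3 : H.edgeSet ⊆ (fun v => s(v, par v)) '' {r}ᶜ := by
    intro e he
    induction e using Sym2.ind with
    | _ u v =>
      rcases h2 u v he with ⟨a, rfl⟩ | ⟨a, rfl⟩
      · exact ⟨u, a, rfl⟩
      · exact ⟨v, a, Sym2.eq_swap⟩
  have h4 := (Set.ncard_le_ncard h3 (Set.toFinite _)).trans (Set.ncard_image_le (Set.toFinite _))
  have h5 := Set.ncard_add_ncard_compl ({r} : Set W)
  rw [Set.ncard_singleton] at h5
  rw [Nat.card_coe_set_eq]
  omega

theorem star_tree {V : Type} [Finite V] (G : SimpleGraph V) (p : V) (s : Set V) (hp : p ∈ s)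
    (h1 : ∀ v ∈ s, v ≠ p → G.Adj v p) (h2 : ∀ u ∈ s, ∀ v ∈ s, G.Adj u v → u = p ∨ v = p) :
    (G.induce s).IsTree := by
  classical
  refine tree_of_par _ ⟨p, hp⟩ (fun _ => ⟨p, hp⟩) (fun v => if v.1 = p then 0 else 1) ?_ ?_
  · intro v hv
    have : v.1 ≠ p := fun e => hv (Subtype.ext e)
    exact ⟨h1 v.1 v.2 this, by simp [this]⟩
  · intro u v h
    rcases h2 u.1 u.2 v.1 v.2 h with e | e
    · exact Or.inr ⟨fun e' => h.ne ((Subtype.ext e).trans e'.symm), Subtype.ext e⟩
    · exact Or.inl ⟨fun e' => h.ne (e'.trans (Subtype.ext e).symm), Subtype.ext e⟩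

theorem foreg {V : Type} [Finite V] (G : SimpleGraph V) (r : V) (ρ : V → ℕ) (hr : ρ r = 0) :
    ∀ (m : ℕ) (s : Finset V), s.card = m →
      (s = ∅ ∨ (r ∈ s ∧ ∀ v ∈ s, v ≠ r → ∃ u ∈ s, G.Adj v u ∧ ρ u + 1 = ρ v)) →
      ∃ k, 2 * k ≤ m + 1 ∧ ∃ c : V → ℕ, (∀ v ∈ s, c v < k) ∧
        ∀ i < k, (G.induce {v | v ∈ s ∧ c v = i}).IsTree := by
  classical
  intro m
  induction m using Nat.strong_induction_on with
  | _ m ih =>
    intro s hs h
    rcases h with rfl | ⟨h0, h⟩
    · exact ⟨0, by omega, fun _ => 0, by simp, by simp⟩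
    have fin : ∀ t ⊆ s, (2 ≤ t.card ∨ t = s) → (G.induce (t : Set V)).IsTree →
        (s \ t = ∅ ∨ (r ∈ s \ t ∧ ∀ v ∈ s \ t, v ≠ r → ∃ u ∈ s \ t, G.Adj v u ∧ ρ u + 1 = ρ v)) →
        ∃ k, 2 * k ≤ m + 1 ∧ ∃ c : V → ℕ, (∀ v ∈ s, c v < k) ∧
          ∀ i < k, (G.induce {v | v ∈ s ∧ c v = i}).IsTree := by
      intro t ht h2 hT hI
      have hm : 0 < m := hs ▸ card_pos.2 ⟨r, h0⟩
      have hc := card_sdiff_of_subset ht
      have hle := card_le_card ht
      obtain ⟨k, hk, c, hc1, hc2⟩ := ih (s \ t).card (by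
        rcases h2 with h2 | rfl
        · omega
        · simpa using hm) (s \ t) rfl hI
      refine ⟨k + 1, ?_, fun v => if v ∈ t then k else c v, fun v hv => ?_, fun i hi => ?_⟩
      · rcases h2 with h2 | rfl
        · omega
        · simp at hk; omega
      · by_cases e : v ∈ t
        · simp [e]
        · have := hc1 v (Finset.mem_sdiff.2 ⟨hv, e⟩)
          simp [e]; omega
      · rcases (by omega : i < k ∨ i = k) with h3 | rfl
        · have : {v | v ∈ s ∧ (if v ∈ t then k else c v) = i} = {v | v ∈ s \ t ∧ c v = i} := by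
            ext v
            by_cases e : v ∈ t <;> simp [e]
            omega
          rw [this]; exact hc2 i h3
        · have : {v | v ∈ s ∧ (if v ∈ t then i else c v) = i} = (t : Set V) := by
            ext v
            by_cases e : v ∈ t
            · simp [e, ht e]
            · simp only [e, if_false, Set.mem_setOf_eq, mem_coe, iff_false, not_and]
              exact fun hv => (hc1 v (Finset.mem_sdiff.2 ⟨hv, e⟩)).ne
          rw [this]; exact hT
    obtain ⟨x, hx, hmax⟩ := exists_max_image s ρ ⟨r, h0⟩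
    by_cases hx0 : ρ x = 0
    · have : s = {r} := eq_singleton_iff_unique_mem.2 ⟨h0, fun v hv => by
        by_contra e
        obtain ⟨u, -, -, h3⟩ := h v hv e
        have := hmax v hv
        omega⟩
      exact fin s (Subset.refl _) (Or.inr rfl)
        (star_tree G r _ h0 (by simp [this]) (by simp [this])) (Or.inl (by simp))
    by_cases h2 : ∃ y ∈ s, ∃ z ∈ s, ρ y = ρ x ∧ ρ z = ρ x ∧ G.Adj y z
    · obtain ⟨y, hy, z, hz, a1, a2, a3⟩ := h2
      refine fin {y, z} (by simp [insert_subset_iff, hy, hz]) (Or.inl (card_pair a3.ne).ge)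
        (star_tree G z _ (by simp) (by simp [a3]) ?_) (Or.inr ⟨?_, fun v hv e => ?_⟩)
      · simp only [coe_insert, coe_singleton, Set.mem_insert_iff, Set.mem_singleton_iff]
        rintro u (rfl | rfl) v (rfl | rfl) <;> simp
      · simp only [Finset.mem_sdiff, h0, mem_insert, mem_singleton, true_and]
        rintro (rfl | rfl) <;> omega
      · obtain ⟨u, b1, b2, b3⟩ := h v (Finset.mem_sdiff.1 hv).1 e
        have := hmax v (Finset.mem_sdiff.1 hv).1
        refine ⟨u, ?_, b2, b3⟩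
        simp only [Finset.mem_sdiff, b1, mem_insert, mem_singleton, true_and]
        rintro (rfl | rfl) <;> omega
    · obtain ⟨p, hp, a1, a2⟩ := h x hx (fun e => hx0 (e ▸ hr))
      refine fin (insert p (s.filter fun y => ρ y = ρ x ∧ G.Adj y p))
        (insert_subset hp (filter_subset _ _)) (Or.inl ?_) (star_tree G p _ (by simp) ?_ ?_) ?_
      · rw [card_insert_of_notMem (by simp)]
        exact Nat.succ_le_succ (card_pos.2 ⟨x, by simp [hx, a1]⟩)
      · intro v hv e
        simp only [coe_insert, coe_filter, Set.mem_insert_iff, e, false_or] at hv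
        exact hv.2.2
      · intro u hu v hv huv
        simp only [coe_insert, coe_filter, Set.mem_insert_iff] at hu hv
        rcases hu with rfl | hu
        · exact Or.inl rfl
        rcases hv with rfl | hv
        · exact Or.inr rfl
        exact absurd ⟨u, hu.1, v, hv.1, hu.2.1, hv.2.1, huv⟩ h2
      · by_cases e : p = r
        · left
          subst e
          refine eq_empty_of_forall_notMem fun v hv => ?_
          simp only [Finset.mem_sdiff, mem_insert, mem_filter, not_or] at hv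
          obtain ⟨u, b1, b2, b3⟩ := h v hv.1 hv.2.1
          have := hmax v hv.1
          have hu : u = p := by
            by_contra e
            obtain ⟨_, -, -, _⟩ := h u b1 e
            omega
          exact hv.2.2 ⟨hv.1, by omega, hu ▸ b2⟩
        · refine Or.inr ⟨?_, fun v hv e' => ?_⟩
          · simp only [Finset.mem_sdiff, h0, mem_insert, mem_filter, true_and, not_or]
            exact ⟨fun h => e h.symm, fun h => by omega⟩
          · simp only [Finset.mem_sdiff, mem_insert, mem_filter, not_or] at hv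
            obtain ⟨u, b1, b2, b3⟩ := h v hv.1 e'
            have := hmax v hv.1
            refine ⟨u, ?_, b2, b3⟩
            simp only [Finset.mem_sdiff, b1, mem_insert, mem_filter, true_and, not_or]
            exact ⟨fun e => hv.2.2 ⟨hv.1, by subst e; omega, e ▸ b2⟩, fun h => by omega⟩

theorem tau'_spec {V : Type} [Fintype V] (G : SimpleGraph V) (hG : G.Connected) :
    ∃ k, 2 * k ≤ Fintype.card V + 1 ∧ ∃ c : V → Fin k, ∀ i, (G.induce {v | c v = i}).IsTree := by
  obtain ⟨r⟩ := hG.nonempty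
  obtain ⟨k, hk, c, h1, h2⟩ := foreg G r (fun v => G.dist v r) dist_self _ univ rfl
    (Or.inr ⟨mem_univ _, fun v _ e => by
      obtain ⟨w, hw⟩ := hG.exists_walk_length_eq_dist v r
      cases w with
      | nil => exact absurd rfl e
      | cons h q =>
        rename_i u
        have h3 := dist_le q
        have h4 := hG.dist_triangle (u := v) (v := u) (w := r)
        rw [dist_eq_one_iff_adj.2 h] at h4
        simp only [Walk.length_cons] at hw
        exact ⟨u, mem_univ _, h, by omega⟩⟩)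
  refine ⟨k, hk, fun v => ⟨c v, h1 v (mem_univ _)⟩, fun i => ?_⟩
  have := h2 i i.2
  rwa [show {v | v ∈ univ ∧ c v = i} = {v | (⟨c v, h1 v (mem_univ _)⟩ : Fin k) = i} by
    ext v; simp [Fin.ext_iff]] at this

theorem upper (n : ℕ) (hn : 4 ≤ n) (G : SimpleGraph (Fin n)) (hG : G.Connected) :
    (tau' G : ℝ) / (tau G * n) ≤ 1 / 4 + 1 / n := by
  have hnR : (4 : ℝ) ≤ n := by exact_mod_cast hn
  rcases (by omega : tau G = 0 ∨ tau G = 1 ∨ 2 ≤ tau G) with h | h | h
  · rw [h]; simp; positivity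
  · obtain ⟨T, h1, h2⟩ : 1 ∈ {k | ∃ T : Fin k → G.Subgraph, (∀ i, (T i).coe.IsTree) ∧
        ∀ e ∈ G.edgeSet, ∃! i, e ∈ (T i).edgeSet} :=
      h ▸ Nat.sInf_mem (Nat.nonempty_of_pos_sInf (by rw [tau] at h; omega))
    have hadj : ∀ u v, G.Adj u v → (T 0).Adj u v := fun u v huv => by
      obtain ⟨i, hi, -⟩ := h2 s(u, v) huv
      rwa [Subsingleton.elim i 0] at hi
    have hv : (T 0).verts = Set.univ := by
      haveI : Nontrivial (Fin n) := Fin.nontrivial_iff_two_le.2 (by omega)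
      refine Set.eq_univ_of_forall fun v => ?_
      obtain ⟨u, hu⟩ := exists_ne v
      obtain ⟨w⟩ := hG.preconnected v u
      cases w with
      | nil => exact absurd rfl hu
      | cons h _ => exact (T 0).edge_vert (hadj _ _ h)
    have h3 : (G.induce {v | (fun _ => (0 : Fin 1)) v = 0}).IsTree := by
      have e : (T 0).coe = G.induce (T 0).verts := by
        ext u v
        exact ⟨fun h => (T 0).adj_sub h, fun h => hadj _ _ h⟩
      have := h1 0
      rw [e, hv] at this
      rwa [show {v : Fin n | (fun _ => (0 : Fin 1)) v = 0} = Set.univ by ext; simp]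
    have h4 : tau' G ≤ 1 := Nat.sInf_le ⟨fun _ => 0, fun i => by rwa [Subsingleton.elim i 0]⟩
    have h5 : (tau' G : ℝ) ≤ 1 := by exact_mod_cast h4
    rw [h, Nat.cast_one, one_mul]
    have : (tau' G : ℝ) / n ≤ 1 / n := by gcongr
    linarith
  · obtain ⟨k, hk, hc⟩ := tau'_spec G hG
    have h4 : tau' G ≤ k := Nat.sInf_le hc
    have h5 : 2 * (tau' G : ℝ) ≤ n + 1 := by
      simp only [Fintype.card_fin] at hk
      exact_mod_cast (by omega : 2 * tau' G ≤ n + 1)
    have h6 : (2 : ℝ) ≤ tau G := by exact_mod_cast h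
    rw [div_add_div _ _ (by norm_num) (by linarith), div_le_div_iff₀ (by positivity) (by positivity)]
    nlinarith [mul_le_mul_of_nonneg_right h6 (by positivity : (0 : ℝ) ≤ (n + 4) * n)]

/-- The friendship graph (with a pendant vertex when the number of vertices is even). -/
def Fr (n : ℕ) : SimpleGraph (Fin (n + 1)) where
  Adj i j := i ≠ j ∧ ((i : ℕ) = 0 ∨ (j : ℕ) = 0 ∨ ((i : ℕ) + 1) / 2 = (j + 1) / 2)
  symm := ⟨fun _ _ h => ⟨h.1.symm, by omega⟩⟩
  loopless := ⟨fun _ h => h.1 rfl⟩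

theorem Fr_conn (n : ℕ) : (Fr n).Connected := by
  have : ∀ v, (Fr n).Reachable v 0 := fun v => by
    by_cases e : v = 0
    · rw [e]
    · exact Adj.reachable ⟨e, Or.inr (Or.inl rfl)⟩
  exact ⟨fun u v => (this u).trans (this v).symm⟩

def T1 (n : ℕ) : (Fr n).Subgraph where
  verts := Set.univ
  Adj i j := (Fr n).Adj i j ∧ ((i : ℕ) % 2 = 1 ∨ (j : ℕ) % 2 = 1)
  adj_sub h := h.1
  edge_vert _ := trivial
  symm := ⟨fun _ _ h => ⟨h.1.symm, h.2.symm⟩⟩

def T2 (n : ℕ) : (Fr n).Subgraph where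
  verts := {i | (i : ℕ) % 2 = 0}
  Adj i j := (Fr n).Adj i j ∧ (i : ℕ) % 2 = 0 ∧ (j : ℕ) % 2 = 0
  adj_sub h := h.1
  edge_vert h := h.2.1
  symm := ⟨fun _ _ h => ⟨h.1.symm, h.2.symm⟩⟩

theorem T1_tree (n : ℕ) : (T1 n).coe.IsTree := by
  refine tree_of_par _ ⟨0, trivial⟩
    (fun v => ⟨if (v.1 : ℕ) % 2 = 1 then 0 else ⟨v.1 - 1, by have := v.1.2; omega⟩, trivial⟩)
    (fun v => v.1) ?_ ?_
  · rintro ⟨v, _⟩ hv
    have h0 : (v : ℕ) ≠ 0 := fun e => hv (Subtype.ext (Fin.ext e))
    simp only [Subgraph.coe_adj, T1, Fr, ne_eq, Fin.ext_iff]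
    split_ifs <;> simp only [Fin.val_zero, true_or, or_true, true_and, and_true] <;> omega
  · rintro ⟨u, _⟩ ⟨v, _⟩ h
    simp only [Subgraph.coe_adj, T1, Fr, ne_eq, Fin.ext_iff, Subtype.ext_iff] at h ⊢
    split_ifs <;> simp only [Fin.val_zero] <;> omega

theorem T2_tree (n : ℕ) : (T2 n).coe.IsTree := by
  have e : (T2 n).coe = (Fr n).induce (T2 n).verts := by
    ext u v
    exact ⟨fun h => h.1, fun h => ⟨h, u.2, v.2⟩⟩
  rw [e]
  refine star_tree _ 0 _ (by simp [T2]) (fun v _ e => ⟨e, Or.inr (Or.inl rfl)⟩) fun u hu v hv h => ?_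
  simp only [T2, Fr, Set.mem_setOf_eq, ne_eq, Fin.ext_iff, Fin.val_zero] at hu hv h ⊢
  omega

theorem lower (n : ℕ) (hn : 1 ≤ n) : (Fr n).edgeSet.Nonempty ∧
    1 / 4 - 1 / ((n + 1 : ℕ) : ℝ) ≤ (tau' (Fr n) : ℝ) / (tau (Fr n) * (n + 1 : ℕ)) := by
  have he : s(0, ⟨1, by omega⟩) ∈ (Fr n).edgeSet := ⟨by simp [Fin.ext_iff], Or.inl rfl⟩
  have h2 : 2 ∈ {k | ∃ T : Fin k → (Fr n).Subgraph, (∀ i, (T i).coe.IsTree) ∧
      ∀ e ∈ (Fr n).edgeSet, ∃! i, e ∈ (T i).edgeSet} := by
    refine ⟨![T1 n, T2 n], fun i => by fin_cases i; exacts [T1_tree n, T2_tree n], fun e he => ?_⟩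
    induction e using Sym2.ind with
    | _ u v =>
      by_cases h : (u : ℕ) % 2 = 1 ∨ (v : ℕ) % 2 = 1
      · refine ⟨0, ⟨he, h⟩, fun i hi => ?_⟩
        fin_cases i
        · rfl
        · have : (u : ℕ) % 2 = 0 ∧ (v : ℕ) % 2 = 0 := hi.2
          omega
      · refine ⟨1, ⟨he, (by omega : (u : ℕ) % 2 = 0 ∧ (v : ℕ) % 2 = 0)⟩, fun i hi => ?_⟩
        fin_cases i
        · exact absurd hi.2 h
        · rfl
  have h3 : tau (Fr n) ≤ 2 := Nat.sInf_le h2
  have h4 : 0 < tau (Fr n) := by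
    by_contra h
    have h5 := Nat.sInf_mem ⟨2, h2⟩
    rw [show sInf _ = 0 from Nat.eq_zero_of_not_pos h] at h5
    obtain ⟨T, -, h6⟩ := h5
    obtain ⟨i, -⟩ := h6 _ he
    exact i.elim0
  have h5 : n / 2 ≤ tau' (Fr n) := by
    obtain ⟨k, -, hk⟩ := tau'_spec _ (Fr_conn n)
    obtain ⟨c, hc⟩ : tau' (Fr n) ∈ {k | ∃ c : Fin (n + 1) → Fin k,
      ∀ i, ((Fr n).induce {v | c v = i}).IsTree} := Nat.sInf_mem ⟨k, hk⟩
    have h6 : ∀ t : Fin (n / 2), ∃ v : Fin (n + 1), ((v : ℕ) + 1) / 2 = t + 1 ∧ c v ≠ c 0 := by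
      intro t
      have ht := t.2
      by_contra hcon
      push Not at hcon
      have a1 := hcon ⟨2 * t + 1, by omega⟩ (by simp; omega)
      have a2 := hcon ⟨2 * t + 2, by omega⟩ (by simp; omega)
      have := (hc (c 0)).isAcyclic.path_unique
        (v := ⟨0, rfl⟩) (w := ⟨⟨2 * t + 1, by omega⟩, a1⟩)
        (Path.singleton ⟨by simp [Fin.ext_iff], Or.inl rfl⟩)
        ⟨Walk.cons (v := ⟨⟨2 * t + 2, by omega⟩, a2⟩) ⟨by simp [Fin.ext_iff], Or.inl rfl⟩
          (Walk.cons ⟨by simp [Fin.ext_iff], by simp; omega⟩ Walk.nil), by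
          simp [Walk.isPath_def, Fin.ext_iff]⟩
      have := congrArg (fun p => p.1.length) this
      simp [Path.singleton] at this
    choose f hf1 hf2 using h6
    have h7 : Function.Injective fun t => c (f t) := by
      intro t t' h
      obtain ⟨w⟩ := (hc (c (f t))).connected.preconnected ⟨f t, rfl⟩ ⟨f t', h.symm⟩
      have : ∀ (a b : {v | c v = c (f t)}) (w : ((Fr n).induce {v | c v = c (f t)}).Walk a b),
          ((a.1 : ℕ) + 1) / 2 = (b.1 + 1) / 2 := by
        intro a b w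
        induction w with
        | nil => rfl
        | cons h q ih =>
          rename_i a' b' _
          have z : ∀ x : {v | c v = c (f t)}, (x.1 : ℕ) ≠ 0 := fun x e =>
            hf2 t (x.2.symm.trans (congrArg c (Fin.ext e)))
          have := z a'
          have := z b'
          have := h.2
          simp only [Function.Embedding.coe_subtype] at this
          omega
      have := this _ _ w
      simp only [hf1] at this
      exact Fin.ext (by omega)
    simpa using Fintype.card_le_of_injective _ h7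
  refine ⟨⟨_, he⟩, ?_⟩
  have h6 : (n : ℝ) - 1 ≤ 2 * tau' (Fr n) := by
    have : n ≤ 2 * tau' (Fr n) + 1 := by omega
    have : (n : ℝ) ≤ 2 * tau' (Fr n) + 1 := by exact_mod_cast this
    linarith
  have h7 : (tau (Fr n) : ℝ) ≤ 2 := by exact_mod_cast h3
  have h8 : (0 : ℝ) < tau (Fr n) := by exact_mod_cast h4
  have h9 : (tau' (Fr n) : ℝ) / (2 * (n + 1 : ℕ)) ≤
      (tau' (Fr n) : ℝ) / (tau (Fr n) * (n + 1 : ℕ)) := by gcongr
  refine le_trans ?_ h9
  push_cast
  have hn0 : (0 : ℝ) ≤ n := by positivity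
  rw [div_sub_div _ _ (by norm_num) (by linarith), div_le_div_iff₀ (by positivity) (by positivity)]
  nlinarith

/-- `c₂ = 1/4`. -/
theorem result : limsup maxRatio atTop = 1 / 4 := by
  refine Tendsto.limsup_eq ?_
  have h0 : Tendsto (fun n : ℕ => 1 / (n : ℝ)) atTop (nhds 0) := tendsto_one_div_atTop_nhds_zero_nat
  refine tendsto_of_tendsto_of_tendsto_of_le_of_le' (g := fun n : ℕ => 1 / 4 - 1 / (n : ℝ))
    (h := fun n : ℕ => 1 / 4 + 1 / (n : ℝ)) (by simpa only [sub_zero] using h0.const_sub (1 / 4))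
    (by simpa only [add_zero] using h0.const_add (1 / 4)) ?_ ?_
  · filter_upwards [eventually_ge_atTop 4] with n hn
    obtain ⟨m, rfl⟩ : ∃ m, n = m + 1 := ⟨n - 1, by omega⟩
    obtain ⟨h1, h2⟩ := lower m (by omega)
    refine h2.trans (le_csSup ⟨1 / 4 + 1 / ((m + 1 : ℕ) : ℝ), ?_⟩ ⟨Fr m, Fr_conn m, h1, rfl⟩)
    rintro _ ⟨G, hG, -, rfl⟩
    exact upper _ hn G hG
  · filter_upwards [eventually_ge_atTop 4] with n hn
    refine Real.sSup_le ?_ (by positivity)
    rintro _ ⟨G, hG, -, rfl⟩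
    exact upper _ hn G hG

end Pool.Agent.Results.MP_8bd6c4_co.Q2
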